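import Mathlib
import Pool.Agent.U766.OP.Gap
import Pool.Agent.U766.OP.Exa

/-!
# Short windows with the expected number of primes, up to constants: a positive proportion in every long interval
-/

set_option autoImplicit false

namespace Pool.Agent.U766.PW

open Finset Filter Topology
open Pool.Agent.R527.LV (ps pat box mem_box card_box ps_zero ps_succ pat_card)
open Pool.Agent.H387R2.Uni (CT nuT CT_nonneg)
open Pool.Agent.U766.OP (primesIn pic_nat)

/-- the upper bound sieve for the patterns -/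
theorem pat_up (l : ℕ) : ∃ C : ℝ, 0 < C ∧ ∃ X₀ : ℕ, ∀ a H : ℕ, X₀ ≤ H → H ≤ a → ∀ g : Fin l → ℕ, (∀ i, 1 ≤ g i) →
    (((Ioc a (a + H)).filter (fun q => ∀ t ∈ pat g, (q + t).Prime)).card : ℝ) ≤
      C * (CT (pat g) * (H / Real.log H ^ (l + 1))) := by
  classical
  obtain ⟨C, hC, X₀, h⟩ := Pool.Agent.Y840.PT.up (l + 1)
  refine ⟨C, hC, max X₀ (l + 1), fun a H hH hHa g hg => ?_⟩
  set T : Finset (ℕ × ℕ) := (pat g).map Pool.Agent.Y840.PT.sh with hT
  have hTc : T.card = l + 1 := by rw [hT, card_map, pat_card hg]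
  by_cases hadm : ∀ p : ℕ, p.Prime → Pool.Agent.W218.MU.w T p < p
  · have h1 := h H a ((le_max_left _ _).trans hH) (by omega) T (Pool.Agent.Y840.PT.prim_sh _) hTc hadm
    rw [hT, Pool.Agent.Y840.PT.SL_sh] at h1
    refine le_trans ?_ h1
    rw [Nat.cast_le]
    apply card_le_card
    intro q hq
    rw [mem_filter] at hq ⊢
    refine ⟨hq.1, fun L hL => ?_⟩
    rw [Finset.mem_map] at hL
    obtain ⟨t, ht, rfl⟩ := hL
    have := hq.2 t ht
    show (1 * q + t).Prime
    rwa [one_mul]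
  · push Not at hadm
    obtain ⟨p, hp, hpw⟩ := hadm
    rw [hT, Pool.Agent.Y840.PT.w_sh _ hp.pos] at hpw
    have hempty : (Ioc a (a + H)).filter (fun q => ∀ t ∈ pat g, (q + t).Prime) = ∅ := by
      rw [Finset.eq_empty_iff_forall_notMem]
      intro q hq
      rw [mem_filter] at hq
      have himg : (pat g).image (· % p) = range p := by
        apply Finset.eq_of_subset_of_card_le
        · intro r hr
          rw [mem_image] at hr
          obtain ⟨t, _, rfl⟩ := hr
          exact mem_range.2 (Nat.mod_lt _ hp.pos)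
        · rw [card_range]
          exact hpw
      have hpl : p ≤ l + 1 := by
        have h2 : ((pat g).image (· % p)).card ≤ (pat g).card := card_image_le
        rw [himg, card_range, pat_card hg] at h2
        exact h2
      have h3 : (p - q % p) % p ∈ (pat g).image (· % p) := by
        rw [himg]
        exact mem_range.2 (Nat.mod_lt _ hp.pos)
      rw [mem_image] at h3
      obtain ⟨t, ht, h4⟩ := h3
      have h5 : p ∣ q + t := by
        have h6 : q % p < p := Nat.mod_lt _ hp.pos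
        rw [Nat.dvd_iff_mod_eq_zero, Nat.add_mod, h4, Nat.add_mod_mod, Nat.add_sub_cancel' h6.le, Nat.mod_self]
      have h6 := (Nat.prime_dvd_prime_iff_eq hp (hq.2 t ht)).1 h5
      have h7 := (mem_Ioc.1 hq.1).1
      have h8 : l + 1 ≤ H := (le_max_right _ _).trans hH
      omega
    rw [hempty, card_empty, Nat.cast_zero]
    have h1 := CT_nonneg (pat g)
    have h2 : 0 ≤ Real.log (H : ℝ) := Real.log_natCast_nonneg H
    positivity

lemma pat0 (g : Fin 0 → ℕ) : pat g = {0} := by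
  ext t
  unfold pat
  rw [mem_image, mem_singleton]
  constructor
  · rintro ⟨i, -, rfl⟩
    have hi : i = 0 := by
      apply Fin.ext
      have := i.2
      simp only [Fin.val_zero]
      omega
    rw [hi, ps_zero]
  · rintro rfl
    exact ⟨0, mem_univ _, ps_zero _⟩

lemma pat1 (d : ℕ) : pat (fun _ : Fin 1 => d) = {0, d} := by
  ext t
  unfold pat
  rw [mem_image, mem_insert, mem_singleton]
  constructor
  · rintro ⟨i, -, rfl⟩
    induction i using Fin.cases with
    | zero => left; exact ps_zero _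
    | succ i =>
      right
      have hi : i = 0 := Subsingleton.elim _ _
      rw [hi, ps_succ, Fin.castSucc_zero, ps_zero, zero_add]
  · rintro (rfl | rfl)
    · exact ⟨0, mem_univ _, ps_zero _⟩
    · refine ⟨Fin.succ 0, mem_univ _, ?_⟩
      rw [ps_succ, Fin.castSucc_zero, ps_zero, zero_add]

/-- number of the primes, upper bound -/
theorem primes_up : ∃ C : ℝ, 0 < C ∧ ∃ X₀ : ℕ, ∀ a H : ℕ, X₀ ≤ H → H ≤ a →
    ((primesIn a H).card : ℝ) ≤ C * (H / Real.log H) := by
  classical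
  obtain ⟨C, hC, X₀, h⟩ := pat_up 0
  refine ⟨C * (CT {0} + 1), by have := CT_nonneg {0}; positivity, X₀, fun a H hH hHa => ?_⟩
  have h1 := h a H hH hHa (fun _ => 1) (fun _ => le_rfl)
  rw [pat0] at h1
  have h2 : (Ioc a (a + H)).filter (fun q => ∀ t ∈ ({0} : Finset ℕ), (q + t).Prime) = primesIn a H := by
    unfold primesIn
    ext q
    simp only [mem_filter, mem_singleton, forall_eq, Nat.add_zero]
  rw [h2, zero_add, pow_one] at h1
  refine h1.trans ?_
  have h3 : 0 ≤ (H : ℝ) / Real.log H := div_nonneg (Nat.cast_nonneg _) (Real.log_natCast_nonneg H)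
  have h4 := CT_nonneg ({0} : Finset ℕ)
  nlinarith [mul_nonneg hC.le h3]

/-- number of the pairs of primes, upper bound -/
theorem pairs_up : ∃ C : ℝ, 0 < C ∧ ∃ X₀ : ℕ, ∀ a H : ℕ, X₀ ≤ H → H ≤ a → ∀ h : ℕ, 1 ≤ h →
    ∑ d ∈ Icc 1 h, (((Ioc a (a + H)).filter (fun q => q.Prime ∧ (q + d).Prime)).card : ℝ) ≤
      C * (h * (H / Real.log H ^ 2)) := by
  classical
  obtain ⟨C, hC, X₀, hup⟩ := pat_up 1
  obtain ⟨C₂, hC₂, hmom⟩ := Pool.Agent.TH891.SG.CT_mom 1 2
  refine ⟨C * (1 + C₂ * 8), by positivity, X₀, fun a H hH hHa h hh => ?_⟩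
  obtain ⟨V, hV⟩ : ∃ V : ℝ, V = H / Real.log H ^ 2 := ⟨_, rfl⟩
  have hV0 : 0 ≤ V := by
    rw [hV]
    exact div_nonneg (Nat.cast_nonneg _) (pow_nonneg (Real.log_natCast_nonneg H) _)
  rw [← hV]
  have h1 : ∀ d ∈ Icc 1 h, (((Ioc a (a + H)).filter (fun q => q.Prime ∧ (q + d).Prime)).card : ℝ) ≤
      C * V * (1 + CT (pat (fun _ : Fin 1 => d)) ^ 2) := by
    intro d hd
    have h2 := hup a H hH hHa (fun _ => d) (fun _ => (mem_Icc.1 hd).1)
    have h3 : (Ioc a (a + H)).filter (fun q => ∀ t ∈ pat (fun _ : Fin 1 => d), (q + t).Prime) =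
        (Ioc a (a + H)).filter (fun q => q.Prime ∧ (q + d).Prime) := by
      ext q
      rw [mem_filter, mem_filter, pat1]
      simp only [mem_insert, mem_singleton, forall_eq_or_imp, forall_eq, Nat.add_zero]
    rw [h3, show (1 + 1 : ℕ) = 2 by norm_num, ← hV] at h2
    refine h2.trans ?_
    have h4 : CT (pat (fun _ : Fin 1 => d)) ≤ 1 + CT (pat (fun _ : Fin 1 => d)) ^ 2 := by
      nlinarith [sq_nonneg (CT (pat (fun _ : Fin 1 => d)) - 1 / 2)]
    calc C * (CT (pat (fun _ : Fin 1 => d)) * V) = C * V * CT (pat (fun _ : Fin 1 => d)) := by ring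
      _ ≤ _ := by gcongr
  have h2 : ∑ d ∈ Icc 1 h, CT (pat (fun _ : Fin 1 => d)) ^ 2 = ∑ g ∈ box 1 h, CT (pat g) ^ 2 := by
    symm
    apply Finset.sum_bij' (fun (g : Fin 1 → ℕ) _ => g 0) (fun (d : ℕ) _ => (fun _ : Fin 1 => d))
    · intro g hg
      have := (mem_box.1 hg) 0
      exact mem_Icc.2 this
    · intro d hd
      rw [mem_box]
      intro i
      exact mem_Icc.1 hd
    · intro g hg
      funext i
      have hi : i = 0 := Subsingleton.elim _ _
      rw [hi]
    · intro d hd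
      rfl
    · intro g hg
      have : (fun _ : Fin 1 => g 0) = g := by
        funext i
        have hi : i = 0 := Subsingleton.elim _ _
        rw [hi]
      rw [this]
  have h3 := Pool.Agent.R527.LV.mom 1 C₂ hmom h
  have hh' : (1 : ℝ) ≤ h := by exact_mod_cast hh
  calc ∑ d ∈ Icc 1 h, (((Ioc a (a + H)).filter (fun q => q.Prime ∧ (q + d).Prime)).card : ℝ)
      ≤ ∑ d ∈ Icc 1 h, C * V * (1 + CT (pat (fun _ : Fin 1 => d)) ^ 2) := Finset.sum_le_sum h1
    _ = C * V * (h + ∑ g ∈ box 1 h, CT (pat g) ^ 2) := by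
        rw [← Finset.mul_sum, Finset.sum_add_distrib, h2, Finset.sum_const, Nat.card_Icc]
        simp
    _ ≤ C * V * (h + C₂ * 2 ^ (1 + 1) * ((1 * h + 1 : ℕ) : ℝ) ^ 1) := by gcongr
    _ ≤ C * V * (h + C₂ * 8 * h) := by
        have h4 : C₂ * 2 ^ (1 + 1) * ((1 * h + 1 : ℕ) : ℝ) ^ 1 ≤ C₂ * 8 * h := by
          push_cast
          have h5 : (2 : ℝ) ^ (1 + 1) * (1 * (h : ℝ) + 1) ^ 1 ≤ 8 * h := by norm_num; linarith
          calc C₂ * 2 ^ (1 + 1) * (1 * (h : ℝ) + 1) ^ 1 = C₂ * ((2 : ℝ) ^ (1 + 1) * (1 * (h : ℝ) + 1) ^ 1) := by ring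
            _ ≤ C₂ * (8 * h) := by gcongr
            _ = _ := by ring
        have h5 : 0 ≤ C * V := by positivity
        nlinarith
    _ = C * (1 + C₂ * 8) * (h * V) := by ring

end Pool.Agent.U766.PW
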