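import Mathlib
import Pool.Agent.U766.PW.Sec
import Pool.Agent.Q278.KT.Fin

/-!
# Short windows with the expected number of primes, up to constants: a positive proportion in every long interval (the theorem)
-/

set_option autoImplicit false

namespace Pool.Agent.U766.PW

open Finset Filter Topology
open Pool.Agent.U766.OP (primesIn pic_nat)

lemma dc_le (Q S : Finset ℕ) (h : ℕ) :
    ∑ m ∈ S, (Q.filter (fun q => m < q ∧ q ≤ m + h)).card ≤ h * Q.card := by
  classical
  have h1 := Finset.sum_card_bipartiteAbove_eq_sum_card_bipartiteBelow (s := S) (t := Q) (fun m q => m < q ∧ q ≤ m + h)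
  unfold Finset.bipartiteAbove Finset.bipartiteBelow at h1
  rw [h1, mul_comm, ← smul_eq_mul]
  apply Finset.sum_le_card_nsmul
  intro q _
  have h2 : S.filter (fun m => m < q ∧ q ≤ m + h) ⊆ Ico (q - h) q := by
    intro m hm
    rw [mem_filter] at hm
    rw [mem_Ico]
    omega
  refine (card_le_card h2).trans ?_
  rw [Nat.card_Ico]
  omega

lemma dc_ge (Q : Finset ℕ) (a H h : ℕ) (hQ : Q ⊆ Ioc (a + h) (a + H)) :
    h * Q.card ≤ ∑ m ∈ Ioc a (a + H), (Q.filter (fun q => m < q ∧ q ≤ m + h)).card := by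
  classical
  have h1 := Finset.sum_card_bipartiteAbove_eq_sum_card_bipartiteBelow (s := Ioc a (a + H)) (t := Q)
    (fun m q => m < q ∧ q ≤ m + h)
  unfold Finset.bipartiteAbove Finset.bipartiteBelow at h1
  rw [h1, mul_comm, ← smul_eq_mul]
  apply Finset.card_nsmul_le_sum
  intro q hq
  have hq' := mem_Ioc.1 (hQ hq)
  have h2 : Ico (q - h) q ⊆ (Ioc a (a + H)).filter (fun m => m < q ∧ q ≤ m + h) := by
    intro m hm
    rw [mem_Ico] at hm
    rw [mem_filter, mem_Ioc]
    omega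
  refine le_trans ?_ (card_le_card h2)
  rw [Nat.card_Ico]
  omega

lemma win_sub {a H h m : ℕ} (hm : m ∈ Ioc a (a + H)) :
    primesIn m h = (primesIn a (H + h)).filter (fun q => m < q ∧ q ≤ m + h) := by
  rw [mem_Ioc] at hm
  unfold primesIn
  ext q
  simp only [mem_filter, mem_Ioc]
  constructor
  · rintro ⟨⟨h1, h2⟩, h3⟩
    exact ⟨⟨⟨by omega, by omega⟩, h3⟩, h1, h2⟩
  · rintro ⟨⟨-, h3⟩, h1, h2⟩
    exact ⟨⟨h1, h2⟩, h3⟩

/-- the square of the number of the elements of a set in an interval of length `h` -/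
lemma sq_card (m h : ℕ) : (primesIn m h).card ^ 2 = (primesIn m h).card +
    2 * ∑ d ∈ Icc 1 h, ((primesIn m h).filter (fun q => q + d ∈ primesIn m h)).card := by
  classical
  set W := primesIn m h with hW
  have hWm : ∀ q ∈ W, m < q ∧ q ≤ m + h := by
    intro q hq
    rw [hW] at hq
    unfold primesIn at hq
    rw [mem_filter, mem_Ioc] at hq
    exact hq.1
  have h1 : ∀ q ∈ W, W.card = 1 + (W.filter (fun r => q < r)).card + (W.filter (fun r => r < q)).card := by
    intro q hq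
    have e1 := Finset.card_filter_add_card_filter_not (s := W) (fun r => q < r)
    have e2 : W.filter (fun r => ¬ q < r) = insert q (W.filter (fun r => r < q)) := by
      ext r
      rw [mem_filter, mem_insert, mem_filter]
      constructor
      · rintro ⟨h1, h2⟩
        rcases Nat.lt_or_ge r q with h3 | h3
        · exact Or.inr ⟨h1, h3⟩
        · exact Or.inl (by omega)
      · rintro (rfl | ⟨h1, h2⟩)
        · exact ⟨hq, lt_irrefl _⟩
        · exact ⟨h1, by omega⟩
    rw [e2, card_insert_of_notMem (by rw [mem_filter]; omega)] at e1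
    omega
  have h2 : ∑ q ∈ W, (W.filter (fun r => r < q)).card = ∑ q ∈ W, (W.filter (fun r => q < r)).card := by
    have := Finset.sum_card_bipartiteAbove_eq_sum_card_bipartiteBelow (s := W) (t := W) (fun q r => q < r)
    unfold Finset.bipartiteAbove Finset.bipartiteBelow at this
    exact this.symm
  have h3 : ∑ q ∈ W, (W.filter (fun r => q < r)).card =
      ∑ d ∈ Icc 1 h, (W.filter (fun q => q + d ∈ W)).card := by
    have e1 := Finset.sum_card_bipartiteAbove_eq_sum_card_bipartiteBelow (s := W) (t := Icc 1 h) (fun q d => q + d ∈ W)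
    unfold Finset.bipartiteAbove Finset.bipartiteBelow at e1
    rw [← e1]
    apply Finset.sum_congr rfl
    intro q hq
    apply Finset.card_bij' (fun r _ => r - q) (fun d _ => q + d)
    · intro r hr
      rw [mem_filter] at hr
      have e2 := hWm r hr.1
      have e3 := hWm q hq
      rw [mem_filter, mem_Icc]
      refine ⟨⟨by omega, by omega⟩, ?_⟩
      show q + (r - q) ∈ W
      rw [Nat.add_sub_cancel' hr.2.le]
      exact hr.1
    · intro d hd
      rw [mem_filter, mem_Icc] at hd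
      rw [mem_filter]
      exact ⟨hd.2, by omega⟩
    · intro r hr
      rw [mem_filter] at hr
      show q + (r - q) = r
      omega
    · intro d hd
      show q + d - q = d
      omega
  calc W.card ^ 2 = ∑ _q ∈ W, W.card := by rw [Finset.sum_const, smul_eq_mul, sq]
    _ = ∑ q ∈ W, (1 + (W.filter (fun r => q < r)).card + (W.filter (fun r => r < q)).card) :=
        Finset.sum_congr rfl h1
    _ = _ := by
        rw [Finset.sum_add_distrib, Finset.sum_add_distrib, h2, h3, Finset.sum_const, smul_eq_mul, mul_one]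
        ring

lemma sq_sum (a H h : ℕ) : ∑ m ∈ Ioc a (a + H), (primesIn m h).card ^ 2 ≤
    h * ((primesIn a (H + h)).card +
      2 * ∑ d ∈ Icc 1 h, ((Ioc a (a + (H + h))).filter (fun q => q.Prime ∧ (q + d).Prime)).card) := by
  classical
  have e1 : ∑ m ∈ Ioc a (a + H), (primesIn m h).card ≤ h * (primesIn a (H + h)).card := by
    refine le_trans (le_of_eq ?_) (dc_le (primesIn a (H + h)) (Ioc a (a + H)) h)
    exact Finset.sum_congr rfl fun m hm => by rw [win_sub hm]
  have e2 : ∀ d ∈ Icc 1 h, ∑ m ∈ Ioc a (a + H), ((primesIn m h).filter (fun q => q + d ∈ primesIn m h)).card ≤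
      h * ((Ioc a (a + (H + h))).filter (fun q => q.Prime ∧ (q + d).Prime)).card := by
    intro d _
    refine le_trans (Finset.sum_le_sum fun m hm => ?_)
      (dc_le ((Ioc a (a + (H + h))).filter (fun q => q.Prime ∧ (q + d).Prime)) (Ioc a (a + H)) h)
    apply card_le_card
    intro q hq
    rw [mem_Ioc] at hm
    unfold primesIn at hq
    simp only [mem_filter, mem_Ioc] at hq ⊢
    obtain ⟨⟨⟨h1, h2⟩, h3⟩, ⟨h4, h5⟩, h6⟩ := hq
    exact ⟨⟨⟨by omega, by omega⟩, h3, h6⟩, h1, h2⟩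
  calc ∑ m ∈ Ioc a (a + H), (primesIn m h).card ^ 2
      = ∑ m ∈ Ioc a (a + H), (primesIn m h).card +
        2 * ∑ d ∈ Icc 1 h, ∑ m ∈ Ioc a (a + H), ((primesIn m h).filter (fun q => q + d ∈ primesIn m h)).card := by
        rw [Finset.sum_comm, Finset.mul_sum, ← Finset.sum_add_distrib]
        exact Finset.sum_congr rfl fun m _ => sq_card m h
    _ ≤ h * (primesIn a (H + h)).card +
        2 * ∑ d ∈ Icc 1 h, h * ((Ioc a (a + (H + h))).filter (fun q => q.Prime ∧ (q + d).Prime)).card := by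
        gcongr with d hd
        exact e2 d hd
    _ = _ := by rw [← Finset.mul_sum]; ring

/-- windows with the expected number of primes, up to constants -/
def Win (c C x : ℝ) (h m : ℕ) : Prop :=
  c * h / Real.log x ≤ ((primesIn m h).card : ℝ) ∧ ((primesIn m h).card : ℝ) ≤ C * h / Real.log x

open Classical in
/-- **a positive proportion of good windows in every long interval** -/
theorem good_windows (κ : ℝ) (hκ : 0 < κ) : ∃ c C p : ℝ, 0 < c ∧ 0 < C ∧ 0 < p ∧ p ≤ 1 ∧ ∀ᶠ x : ℝ in atTop,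
    ∀ a H h : ℕ, x ≤ a → (a : ℝ) + H ≤ 2 * x → 2 * (H : ℝ) ≤ x → x ^ (0.615 : ℝ) ≤ H → κ * Real.log x ≤ h →
      (h : ℝ) ≤ Real.sqrt x →
      p * H ≤ (((Ioc a (a + H)).filter (fun m => Win c C x h m)).card : ℝ) := by
  obtain ⟨c1, δ, hc1, hδ, hδ1, hall⟩ := Pool.Agent.U766.OP.all_long Pool.Agent.Q278.KT.mainp_043
    (by norm_num) (by norm_num) (by norm_num) (by norm_num)
  obtain ⟨C₁, hC₁, X₁, hup1⟩ := primes_up
  obtain ⟨C₂, hC₂, X₂, hup2⟩ := pairs_up
  obtain ⟨C₃, hC₃⟩ : ∃ C₃ : ℝ, C₃ = 4 * C₁ / κ + 16 * C₂ := ⟨_, rfl⟩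
  have hC₃0 : 0 < C₃ := by rw [hC₃]; positivity
  obtain ⟨C, hC⟩ : ∃ C : ℝ, C = 8 * C₃ / c1 := ⟨_, rfl⟩
  have hC0 : 0 < C := by rw [hC]; positivity
  obtain ⟨p, hp⟩ : ∃ p : ℝ, p = min (c1 / 4 / C) 1 := ⟨_, rfl⟩
  refine ⟨c1 / 8, C, p, by positivity, hC0, by rw [hp]; positivity, by rw [hp]; exact min_le_right _ _, ?_⟩
  have t1 : Tendsto (fun x : ℝ => Real.sqrt x) atTop atTop := Real.tendsto_sqrt_atTop
  have t2 : ∀ᶠ x : ℝ in atTop, 2 ≤ x ^ δ := (tendsto_rpow_atTop hδ).eventually_ge_atTop _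
  have t3 : ∀ᶠ x : ℝ in atTop, 2 ≤ x ^ (0.115 : ℝ) := (tendsto_rpow_atTop (by norm_num)).eventually_ge_atTop _
  filter_upwards [hall, t1.eventually_ge_atTop (X₁ : ℝ), t1.eventually_ge_atTop (X₂ : ℝ), t2, t3,
    eventually_ge_atTop 16, Real.tendsto_log_atTop.eventually_ge_atTop 2]
    with x hx1 hx2 hx3 hx4 hx5 h16 hL2 a H h ha haH hHx hH hκh hhx
  obtain ⟨L, hL⟩ : ∃ L : ℝ, L = Real.log x := ⟨_, rfl⟩
  rw [← hL] at hL2 hκh hx1
  have hL0 : 0 < L := by linarith
  have hx0 : 0 < x := by linarith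
  have hh0 : (0 : ℝ) < h := lt_of_lt_of_le (by positivity) hκh
  have hh1 : 1 ≤ h := by exact_mod_cast (Nat.cast_pos.1 hh0)
  have hsqrt : Real.sqrt x * 2 ≤ x ^ (0.615 : ℝ) := by
    rw [show (0.615 : ℝ) = 1 / 2 + 0.115 by norm_num, Real.rpow_add hx0, Real.sqrt_eq_rpow]
    gcongr
  have hsH : Real.sqrt x ≤ H := by
    have := Real.sqrt_nonneg x
    linarith
  have h2h : 2 * (h : ℝ) ≤ H := by linarith
  have hhH : h ≤ H := by
    have : (h : ℝ) ≤ H := by linarith
    exact_mod_cast this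
  have hH0 : (0 : ℝ) < H := by linarith
  -- lower bound for the first moment
  have hlow : c1 / 2 * (h * H / L) ≤ ∑ m ∈ Ioc a (a + H), ((primesIn m h).card : ℝ) := by
    have e1 := hx1 ((a + h : ℕ) : ℝ) ((H - h : ℕ) : ℝ) (by push_cast; linarith) (by
      rw [Nat.cast_sub hhH]; push_cast; linarith) (by
      rw [show (1 : ℝ) - 0.43 + 0.045 - δ = 0.615 - δ by norm_num, Real.rpow_sub hx0, div_le_iff₀ (by positivity),
        Nat.cast_sub hhH]
      have e2 : x ^ (0.615 : ℝ) ≤ ((H : ℝ) - h) * 2 := by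
        linarith
      calc x ^ (0.615 : ℝ) ≤ ((H : ℝ) - h) * 2 := e2
        _ ≤ ((H : ℝ) - h) * x ^ δ := by
          apply mul_le_mul_of_nonneg_left hx4
          linarith)
    rw [pic_nat, Nat.cast_sub hhH] at e1
    have e2 : ((h * (primesIn (a + h) (H - h)).card : ℕ) : ℝ) ≤
        ((∑ m ∈ Ioc a (a + H), (primesIn m h).card : ℕ) : ℝ) := by
      rw [Nat.cast_le]
      refine (dc_ge (primesIn (a + h) (H - h)) a H h (fun q hq => ?_)).trans (Finset.sum_le_sum fun m _ => ?_)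
      · unfold primesIn at hq
        rw [mem_filter, mem_Ioc] at hq
        rw [mem_Ioc]
        omega
      · apply card_le_card
        intro q hq
        unfold primesIn at hq ⊢
        rw [mem_filter, mem_filter, mem_Ioc] at hq
        rw [mem_filter, mem_Ioc]
        exact ⟨hq.2, hq.1.2⟩
    push_cast at e2
    refine le_trans ?_ e2
    have e3 : c1 * (H / 2) / L ≤ ((primesIn (a + h) (H - h)).card : ℝ) := by
      refine le_trans ?_ e1
      gcongr
      linarith
    calc c1 / 2 * (h * H / L) = h * (c1 * (H / 2) / L) := by ring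
      _ ≤ _ := by gcongr
  -- upper bound for the second moment
  have hsec : ∑ m ∈ Ioc a (a + H), ((primesIn m h).card : ℝ) ^ 2 ≤ C₃ * (h ^ 2 * H / L ^ 2) := by
    have e1 : ((∑ m ∈ Ioc a (a + H), (primesIn m h).card ^ 2 : ℕ) : ℝ) ≤ ((h * ((primesIn a (H + h)).card +
      2 * ∑ d ∈ Icc 1 h, ((Ioc a (a + (H + h))).filter (fun q => q.Prime ∧ (q + d).Prime)).card) : ℕ) : ℝ) := by
      exact_mod_cast sq_sum a H h
    push_cast at e1
    refine e1.trans ?_
    have hHh : X₁ ≤ H + h ∧ X₂ ≤ H + h ∧ H + h ≤ a := by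
      refine ⟨?_, ?_, ?_⟩
      · have : (X₁ : ℝ) ≤ ((H + h : ℕ) : ℝ) := by push_cast; linarith
        exact_mod_cast this
      · have : (X₂ : ℝ) ≤ ((H + h : ℕ) : ℝ) := by push_cast; linarith
        exact_mod_cast this
      · have h6 : ((H + h : ℕ) : ℝ) ≤ a := by push_cast; linarith
        exact_mod_cast h6
    have e2 := hup1 a (H + h) hHh.1 hHh.2.2
    have e3 := hup2 a (H + h) hHh.2.1 hHh.2.2 h hh1
    push_cast at e2 e3
    have hlog : L / 2 ≤ Real.log ((H : ℝ) + h) := by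
      have h4 : Real.log (Real.sqrt x) ≤ Real.log ((H : ℝ) + h) := Real.log_le_log (Real.sqrt_pos.2 hx0) (by linarith)
      rw [Real.log_sqrt hx0.le, ← hL] at h4
      exact h4
    have hlog0 : 0 < Real.log ((H : ℝ) + h) := by linarith
    have e4 : ((H : ℝ) + h) / Real.log ((H : ℝ) + h) ≤ 4 * H / L := by
      rw [div_le_div_iff₀ hlog0 hL0]
      nlinarith
    have e5 : ((H : ℝ) + h) / Real.log ((H : ℝ) + h) ^ 2 ≤ 8 * H / L ^ 2 := by
      rw [div_le_div_iff₀ (by positivity) (by positivity)]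
      have h5 : L ^ 2 ≤ 4 * Real.log ((H : ℝ) + h) ^ 2 := by nlinarith
      calc ((H : ℝ) + h) * L ^ 2 ≤ (2 * H) * (4 * Real.log ((H : ℝ) + h) ^ 2) := by
            apply mul_le_mul _ h5 (by positivity) (by positivity)
            linarith
        _ = _ := by ring
    have e6 : 4 * C₁ * H / L ≤ 4 * C₁ / κ * (h * H / L ^ 2) := by
      rw [div_mul_eq_mul_div, div_le_div_iff₀ hL0 hκ]
      have h6 : 4 * C₁ * (h * H / L ^ 2) * L = 4 * C₁ * (H / L) * h := by field_simp
      rw [h6]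
      have h7 : 4 * C₁ * H * κ = 4 * C₁ * (H / L) * (κ * L) := by field_simp
      rw [h7]
      gcongr
    calc (h : ℝ) * ((primesIn a (H + h)).card +
          2 * ∑ d ∈ Icc 1 h, (((Ioc a (a + (H + h))).filter (fun q => q.Prime ∧ (q + d).Prime)).card : ℝ))
        ≤ h * (C₁ * (((H : ℝ) + h) / Real.log ((H : ℝ) + h)) +
          2 * (C₂ * (h * (((H : ℝ) + h) / Real.log ((H : ℝ) + h) ^ 2)))) := by gcongr
      _ ≤ h * (C₁ * (4 * H / L) + 2 * (C₂ * (h * (8 * H / L ^ 2)))) := by gcongr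
      _ = h * (4 * C₁ * H / L + 16 * C₂ * (h * H / L ^ 2)) := by ring
      _ ≤ h * (4 * C₁ / κ * (h * H / L ^ 2) + 16 * C₂ * (h * H / L ^ 2)) := by gcongr
      _ = C₃ * (h ^ 2 * H / L ^ 2) := by rw [hC₃]; ring
  -- comparison
  obtain ⟨G, hG0⟩ : ∃ G : Finset ℕ, G = (Ioc a (a + H)).filter (fun m => Win (c1 / 8) C x h m) := ⟨_, rfl⟩
  rw [← hG0]
  have hG : ∀ m, m ∈ G ↔ m ∈ Ioc a (a + H) ∧
      (c1 / 8 * h / L ≤ ((primesIn m h).card : ℝ) ∧ ((primesIn m h).card : ℝ) ≤ C * h / L) := by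
    intro m
    rw [hG0, mem_filter, hL]
    exact Iff.rfl
  obtain ⟨V, hV⟩ : ∃ V : ℝ, V = (h : ℝ) / L := ⟨_, rfl⟩
  have hV0 : 0 < V := by rw [hV]; positivity
  have hpt : ∀ m ∈ Ioc a (a + H), ((primesIn m h).card : ℝ) ≤
      c1 / 8 * V + ((primesIn m h).card : ℝ) ^ 2 / (C * V) + (if m ∈ G then C * V else 0) := by
    intro m hm
    have hn : (0 : ℝ) ≤ ((primesIn m h).card : ℝ) := Nat.cast_nonneg _
    have hq : 0 ≤ ((primesIn m h).card : ℝ) ^ 2 / (C * V) := by positivity
    by_cases hmG : m ∈ G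
    · rw [if_pos hmG]
      rw [hG] at hmG
      have e1 : C * h / L = C * V := by rw [hV]; ring
      rw [e1] at hmG
      have e2 : 0 < c1 / 8 * V := by positivity
      linarith [hmG.2.2]
    · rw [if_neg hmG]
      rw [hG] at hmG
      have e1 : C * h / L = C * V := by rw [hV]; ring
      have e2 : c1 / 8 * h / L = c1 / 8 * V := by rw [hV]; ring
      rw [e1, e2] at hmG
      by_cases h7 : c1 / 8 * V ≤ ((primesIn m h).card : ℝ)
      · have h8 : C * V < ((primesIn m h).card : ℝ) := by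
          by_contra hcon
          exact hmG ⟨hm, h7, not_lt.1 hcon⟩
        have h9 : ((primesIn m h).card : ℝ) ≤ ((primesIn m h).card : ℝ) ^ 2 / (C * V) := by
          rw [le_div_iff₀ (by positivity)]
          nlinarith
        have e3 : 0 < c1 / 8 * V := by positivity
        linarith
      · linarith [not_le.1 h7]
  have hsum := Finset.sum_le_sum hpt
  rw [Finset.sum_add_distrib, Finset.sum_add_distrib, Finset.sum_const, ← Finset.sum_div, Nat.card_Ioc,
    Nat.add_sub_cancel_left, nsmul_eq_mul, Finset.sum_ite_mem,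
    Finset.inter_eq_right.2 (fun m hm => ((hG m).1 hm).1), Finset.sum_const, nsmul_eq_mul] at hsum
  have e7 : (∑ m ∈ Ioc a (a + H), ((primesIn m h).card : ℝ) ^ 2) / (C * V) ≤ c1 / 8 * (V * H) := by
    rw [div_le_iff₀ (by positivity)]
    refine hsec.trans (le_of_eq ?_)
    rw [hC, hV]
    field_simp
  have e8 : c1 / 2 * (h * H / L) = c1 / 2 * (V * H) := by rw [hV]; ring
  rw [e8] at hlow
  have e9 : c1 / 4 * (V * H) ≤ G.card * (C * V) := by
    have e10 : (H : ℝ) * (c1 / 8 * V) = c1 / 8 * (V * H) := by ring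
    linarith
  have e11 : c1 / 4 / C * H ≤ (G.card : ℝ) := by
    rw [div_mul_eq_mul_div, div_le_iff₀ hC0]
    have e12 : V * (c1 / 4 * H) ≤ V * ((G.card : ℝ) * C) := by nlinarith
    exact le_of_mul_le_mul_left e12 hV0
  refine le_trans ?_ e11
  rw [hp]
  gcongr
  exact min_le_left _ _

end Pool.Agent.U766.PW
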