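import Mathlib
import Pool.Agent.U766.PW.Win

/-!
# Short windows with the expected number of primes, up to constants: a positive proportion in every interval with many primes
-/

set_option autoImplicit false

namespace Pool.Agent.U766.PW


open Finset Filter Topology
open Pool.Agent.U766.OP (primesIn pic_nat)

open Classical in
/-- **a positive proportion of good windows in every long interval** -/
theorem win_gen (κ c1 : ℝ) (hκ : 0 < κ) (hc1 : 0 < c1) : ∃ c C p : ℝ, 0 < c ∧ 0 < C ∧ 0 < p ∧ p ≤ 1 ∧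
    ∀ᶠ x : ℝ in atTop, ∀ a H h : ℕ, x ≤ a → 2 * (H : ℝ) ≤ x → x ^ (0.4 : ℝ) ≤ H → κ * Real.log x ≤ h →
      2 * (h : ℝ) ≤ H → c1 * ((H - h : ℕ) : ℝ) / Real.log x ≤ ((primesIn (a + h) (H - h)).card : ℝ) →
      p * H ≤ (((Ioc a (a + H)).filter (fun m => Win c C x h m)).card : ℝ) := by
  obtain ⟨C₁, hC₁, X₁, hup1⟩ := primes_up
  obtain ⟨C₂, hC₂, X₂, hup2⟩ := pairs_up
  obtain ⟨C₃, hC₃⟩ : ∃ C₃ : ℝ, C₃ = 5 * C₁ / κ + 25 * C₂ := ⟨_, rfl⟩
  have hC₃0 : 0 < C₃ := by rw [hC₃]; positivity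
  obtain ⟨C, hC⟩ : ∃ C : ℝ, C = 8 * C₃ / c1 := ⟨_, rfl⟩
  have hC0 : 0 < C := by rw [hC]; positivity
  obtain ⟨p, hp⟩ : ∃ p : ℝ, p = min (c1 / 4 / C) 1 := ⟨_, rfl⟩
  refine ⟨c1 / 8, C, p, by positivity, hC0, by rw [hp]; positivity, by rw [hp]; exact min_le_right _ _, ?_⟩
  have t1 : Tendsto (fun x : ℝ => x ^ (0.4 : ℝ)) atTop atTop := tendsto_rpow_atTop (by norm_num)
  filter_upwards [t1.eventually_ge_atTop (X₁ : ℝ), t1.eventually_ge_atTop (X₂ : ℝ),
    eventually_ge_atTop 16, Real.tendsto_log_atTop.eventually_ge_atTop 2]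
    with x hx2 hx3 h16 hL2 a H h ha hHx hH hκh h2h hlo
  obtain ⟨L, hL⟩ : ∃ L : ℝ, L = Real.log x := ⟨_, rfl⟩
  rw [← hL] at hL2 hκh hlo
  have hL0 : 0 < L := by linarith
  have hx0 : 0 < x := by linarith
  have hh0 : (0 : ℝ) < h := lt_of_lt_of_le (by positivity) hκh
  have hh1 : 1 ≤ h := by exact_mod_cast (Nat.cast_pos.1 hh0)
  have hhH : h ≤ H := by
    have : (h : ℝ) ≤ H := by linarith
    exact_mod_cast this
  have hH0 : (0 : ℝ) < H := by linarith
  -- lower bound for the first moment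
  have hlow : c1 / 2 * (h * H / L) ≤ ∑ m ∈ Ioc a (a + H), ((primesIn m h).card : ℝ) := by
    have e1 := hlo
    rw [Nat.cast_sub hhH] at e1
    have e2 : ((h * (primesIn (a + h) (H - h)).card : ℕ) : ℝ) ≤
        ((∑ m ∈ Ioc a (a + H), (primesIn m h).card : ℕ) : ℝ) := by
      rw [Nat.cast_le]
      refine (dc_ge (primesIn (a + h) (H - h)) a H h (fun q hq => ?_)).trans (Finset.sum_le_sum fun m _ => ?_)
      · unfold primesIn at hq
        rw [mem_filter, mem_Ioc] at hq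
        rw [mem_Ioc]
        omega
      · apply card_le_card
        intro q hq
        unfold primesIn at hq ⊢
        rw [mem_filter, mem_filter, mem_Ioc] at hq
        rw [mem_filter, mem_Ioc]
        exact ⟨hq.2, hq.1.2⟩
    push_cast at e2
    refine le_trans ?_ e2
    have e3 : c1 * (H / 2) / L ≤ ((primesIn (a + h) (H - h)).card : ℝ) := by
      refine le_trans ?_ e1
      gcongr
      linarith
    calc c1 / 2 * (h * H / L) = h * (c1 * (H / 2) / L) := by ring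
      _ ≤ _ := by gcongr
  -- upper bound for the second moment
  have hsec : ∑ m ∈ Ioc a (a + H), ((primesIn m h).card : ℝ) ^ 2 ≤ C₃ * (h ^ 2 * H / L ^ 2) := by
    have e1 : ((∑ m ∈ Ioc a (a + H), (primesIn m h).card ^ 2 : ℕ) : ℝ) ≤ ((h * ((primesIn a (H + h)).card +
      2 * ∑ d ∈ Icc 1 h, ((Ioc a (a + (H + h))).filter (fun q => q.Prime ∧ (q + d).Prime)).card) : ℕ) : ℝ) := by
      exact_mod_cast sq_sum a H h
    push_cast at e1
    refine e1.trans ?_
    have hHh : X₁ ≤ H + h ∧ X₂ ≤ H + h ∧ H + h ≤ a := by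
      refine ⟨?_, ?_, ?_⟩
      · have : (X₁ : ℝ) ≤ ((H + h : ℕ) : ℝ) := by push_cast; linarith
        exact_mod_cast this
      · have : (X₂ : ℝ) ≤ ((H + h : ℕ) : ℝ) := by push_cast; linarith
        exact_mod_cast this
      · have h6 : ((H + h : ℕ) : ℝ) ≤ a := by push_cast; linarith
        exact_mod_cast h6
    have e2 := hup1 a (H + h) hHh.1 hHh.2.2
    have e3 := hup2 a (H + h) hHh.2.1 hHh.2.2 h hh1
    push_cast at e2 e3
    have hlog : 0.4 * L ≤ Real.log ((H : ℝ) + h) := by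
      have h4 : Real.log (x ^ (0.4 : ℝ)) ≤ Real.log ((H : ℝ) + h) :=
        Real.log_le_log (Real.rpow_pos_of_pos hx0 _) (by linarith)
      rw [Real.log_rpow hx0, ← hL] at h4
      exact h4
    have hlog0 : 0 < Real.log ((H : ℝ) + h) := by linarith
    have e4 : ((H : ℝ) + h) / Real.log ((H : ℝ) + h) ≤ 5 * H / L := by
      rw [div_le_div_iff₀ hlog0 hL0]
      calc ((H : ℝ) + h) * L ≤ (2 * H) * L := by gcongr; linarith
        _ = 5 * H * (0.4 * L) := by ring
        _ ≤ 5 * H * Real.log ((H : ℝ) + h) := by gcongr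
    have e5 : ((H : ℝ) + h) / Real.log ((H : ℝ) + h) ^ 2 ≤ 12.5 * H / L ^ 2 := by
      rw [div_le_div_iff₀ (by positivity) (by positivity)]
      calc ((H : ℝ) + h) * L ^ 2 ≤ (2 * H) * L ^ 2 := by gcongr; linarith
        _ = 12.5 * H * (0.4 * L) ^ 2 := by ring
        _ ≤ 12.5 * H * Real.log ((H : ℝ) + h) ^ 2 := by gcongr
    have e6 : 5 * C₁ * H / L ≤ 5 * C₁ / κ * (h * H / L ^ 2) := by
      rw [div_mul_eq_mul_div, div_le_div_iff₀ hL0 hκ]
      have h6 : 5 * C₁ * (h * H / L ^ 2) * L = 5 * C₁ * (H / L) * h := by field_simp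
      rw [h6]
      have h7 : 5 * C₁ * H * κ = 5 * C₁ * (H / L) * (κ * L) := by field_simp
      rw [h7]
      gcongr
    calc (h : ℝ) * ((primesIn a (H + h)).card +
          2 * ∑ d ∈ Icc 1 h, (((Ioc a (a + (H + h))).filter (fun q => q.Prime ∧ (q + d).Prime)).card : ℝ))
        ≤ h * (C₁ * (((H : ℝ) + h) / Real.log ((H : ℝ) + h)) +
          2 * (C₂ * (h * (((H : ℝ) + h) / Real.log ((H : ℝ) + h) ^ 2)))) := by gcongr
      _ ≤ h * (C₁ * (5 * H / L) + 2 * (C₂ * (h * (12.5 * H / L ^ 2)))) := by gcongr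
      _ = h * (5 * C₁ * H / L + 25 * C₂ * (h * H / L ^ 2)) := by ring
      _ ≤ h * (5 * C₁ / κ * (h * H / L ^ 2) + 25 * C₂ * (h * H / L ^ 2)) := by gcongr
      _ = C₃ * (h ^ 2 * H / L ^ 2) := by rw [hC₃]; ring
  -- comparison
  obtain ⟨G, hG0⟩ : ∃ G : Finset ℕ, G = (Ioc a (a + H)).filter (fun m => Win (c1 / 8) C x h m) := ⟨_, rfl⟩
  rw [← hG0]
  have hG : ∀ m, m ∈ G ↔ m ∈ Ioc a (a + H) ∧
      (c1 / 8 * h / L ≤ ((primesIn m h).card : ℝ) ∧ ((primesIn m h).card : ℝ) ≤ C * h / L) := by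
    intro m
    rw [hG0, mem_filter, hL]
    exact Iff.rfl
  obtain ⟨V, hV⟩ : ∃ V : ℝ, V = (h : ℝ) / L := ⟨_, rfl⟩
  have hV0 : 0 < V := by rw [hV]; positivity
  have hpt : ∀ m ∈ Ioc a (a + H), ((primesIn m h).card : ℝ) ≤
      c1 / 8 * V + ((primesIn m h).card : ℝ) ^ 2 / (C * V) + (if m ∈ G then C * V else 0) := by
    intro m hm
    have hn : (0 : ℝ) ≤ ((primesIn m h).card : ℝ) := Nat.cast_nonneg _
    have hq : 0 ≤ ((primesIn m h).card : ℝ) ^ 2 / (C * V) := by positivity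
    by_cases hmG : m ∈ G
    · rw [if_pos hmG]
      rw [hG] at hmG
      have e1 : C * h / L = C * V := by rw [hV]; ring
      rw [e1] at hmG
      have e2 : 0 < c1 / 8 * V := by positivity
      linarith [hmG.2.2]
    · rw [if_neg hmG]
      rw [hG] at hmG
      have e1 : C * h / L = C * V := by rw [hV]; ring
      have e2 : c1 / 8 * h / L = c1 / 8 * V := by rw [hV]; ring
      rw [e1, e2] at hmG
      by_cases h7 : c1 / 8 * V ≤ ((primesIn m h).card : ℝ)
      · have h8 : C * V < ((primesIn m h).card : ℝ) := by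
          by_contra hcon
          exact hmG ⟨hm, h7, not_lt.1 hcon⟩
        have h9 : ((primesIn m h).card : ℝ) ≤ ((primesIn m h).card : ℝ) ^ 2 / (C * V) := by
          rw [le_div_iff₀ (by positivity)]
          nlinarith
        have e3 : 0 < c1 / 8 * V := by positivity
        linarith
      · linarith [not_le.1 h7]
  have hsum := Finset.sum_le_sum hpt
  rw [Finset.sum_add_distrib, Finset.sum_add_distrib, Finset.sum_const, ← Finset.sum_div, Nat.card_Ioc,
    Nat.add_sub_cancel_left, nsmul_eq_mul, Finset.sum_ite_mem,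
    Finset.inter_eq_right.2 (fun m hm => ((hG m).1 hm).1), Finset.sum_const, nsmul_eq_mul] at hsum
  have e7 : (∑ m ∈ Ioc a (a + H), ((primesIn m h).card : ℝ) ^ 2) / (C * V) ≤ c1 / 8 * (V * H) := by
    rw [div_le_iff₀ (by positivity)]
    refine hsec.trans (le_of_eq ?_)
    rw [hC, hV]
    field_simp
  have e8 : c1 / 2 * (h * H / L) = c1 / 2 * (V * H) := by rw [hV]; ring
  rw [e8] at hlow
  have e9 : c1 / 4 * (V * H) ≤ G.card * (C * V) := by
    have e10 : (H : ℝ) * (c1 / 8 * V) = c1 / 8 * (V * H) := by ring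
    linarith
  have e11 : c1 / 4 / C * H ≤ (G.card : ℝ) := by
    rw [div_mul_eq_mul_div, div_le_iff₀ hC0]
    have e12 : V * (c1 / 4 * H) ≤ V * ((G.card : ℝ) * C) := by nlinarith
    exact le_of_mul_le_mul_left e12 hV0
  refine le_trans ?_ e11
  rw [hp]
  gcongr
  exact min_le_left _ _

end Pool.Agent.U766.PW
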